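import Pool.Agent.Y184.NT.St
import Pool.Agent.W603.LV.Ord
import Mathlib.RingTheory.MvPolynomial.EulerIdentity
import Mathlib.RingTheory.Nullstellensatz

/-!
The residues of rational forms with poles along a smooth hypersurface: they are pluricanonical
forms, regular at all places, and they are not zero.
-/

set_option autoImplicit false

open FF MvPolynomial Pool.Agent.W603.LV Pool.Agent.W602.GT Pool.Agent.Y184.NT

namespace Pool.Agent.Y988.NT

section

variable {K : Type} [Field K]

/-- the matrix with the blocks `a`, `0`, `b`, `M` -/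
def bump {n : ℕ} (a : K) (b : Fin n → K) (M : Matrix (Fin n) (Fin n) K) :
    Matrix (Fin (n + 1)) (Fin (n + 1)) K :=
  Matrix.of (Fin.cons (Fin.cons a fun _ => 0) fun i => Fin.cons (b i) (M i) :
    Fin (n + 1) → Fin (n + 1) → K)

theorem det_bump {n : ℕ} (a : K) (b : Fin n → K) (M : Matrix (Fin n) (Fin n) K) :
    (bump a b M).det = a * M.det := by
  rw [Matrix.det_succ_row_zero, Fin.sum_univ_succ, Finset.sum_eq_zero, add_zero]
  · have h : (bump a b M).submatrix Fin.succ (Fin.succAbove 0) = M := by
      ext i j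
      simp [bump]
    rw [h]
    simp [bump]
  · intro i _
    simp [bump]

theorem bump_mul {n : ℕ} {κ : Type} (a : K) (b : Fin n → K) (M : Matrix (Fin n) (Fin n) K)
    (c : κ → K) (R : Fin n → κ → K) :
    bump a b M * (Matrix.of (Fin.cons c R : Fin (n + 1) → κ → K)) =
      Matrix.of (Fin.cons (fun j => a * c j) fun i j => b i * c j + ∑ k, M i k * R k j :
        Fin (n + 1) → κ → K) := by
  ext i j
  rw [Matrix.mul_apply, Fin.sum_univ_succ]
  refine Fin.cases ?_ (fun i => ?_) i
  · simp [bump]
  · simp [bump]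

theorem det_first {n : ℕ} (c c' : Fin (n + 1) → K) (R : Fin n → Fin (n + 1) → K)
    (g : Fin (n + 1) → K) (hg : g ≠ 0) (h1 : ∑ l, g l * c l = ∑ l, g l * c' l)
    (hR : ∀ i, ∑ l, g l * R i l = 0) :
    (Matrix.of (Fin.cons c R : Fin (n + 1) → Fin (n + 1) → K)).det =
      (Matrix.of (Fin.cons c' R : Fin (n + 1) → Fin (n + 1) → K)).det := by
  have h2 : (Matrix.of (Fin.cons (fun l => c l - c' l) R :
      Fin (n + 1) → Fin (n + 1) → K)).det = 0 := by
    rw [← Matrix.exists_mulVec_eq_zero_iff]
    refine ⟨g, hg, ?_⟩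
    ext i
    rw [Matrix.mulVec, dotProduct]
    refine Fin.cases ?_ (fun i => ?_) i
    · simp only [Matrix.of_apply, Fin.cons_zero, Pi.zero_apply]
      rw [← sub_eq_zero, ← Finset.sum_sub_distrib] at h1
      rw [← h1]
      exact Finset.sum_congr rfl fun l _ => by ring
    · simp only [Matrix.of_apply, Fin.cons_succ, Pi.zero_apply]
      rw [← hR i]
      exact Finset.sum_congr rfl fun l _ => by ring
  rw [← sub_eq_zero, ← h2, Matrix.det_succ_row_zero, Matrix.det_succ_row_zero,
    Matrix.det_succ_row_zero, ← Finset.sum_sub_distrib]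
  refine Finset.sum_congr rfl fun l _ => ?_
  have h3 : ∀ e : Fin (n + 1) → K, (Matrix.of (Fin.cons e R :
      Fin (n + 1) → Fin (n + 1) → K)).submatrix Fin.succ l.succAbove =
      (Matrix.of R).submatrix id l.succAbove := by
    intro e
    ext i j
    simp
  rw [h3, h3, h3]
  simp only [Matrix.of_apply, Fin.cons_zero]
  ring

end

section

variable {K : Type} [Field K] [Algebra ℂ K]

theorem rows_eq {n : ℕ} (c x : Fin (n + 2) → K) (D : Fin n → Derivation ℂ K K) :
    rows c x D = Matrix.of (Fin.cons c (Fin.cons x fun i j => D i (x j) :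
      Fin (n + 1) → Fin (n + 2) → K) : Fin (n + 2) → Fin (n + 2) → K) := rfl

theorem sum_der {n : ℕ} (a : Fin n → K) (D : Fin n → Derivation ℂ K K) (f : K) :
    (∑ i, a i • D i) f = ∑ i, a i * D i f := by
  have h := congrFun (map_sum (Derivation.coeFnAddMonoidHom (R := ℂ) (A := K) (M := K))
    (fun i => a i • D i) Finset.univ) f
  rw [Finset.sum_apply] at h
  exact h

/-- the residue forms are pluricanonical forms -/
theorem res_a : StResA := by
  intro K _ _ n A c x M D
  have h : rows c x (fun i => ∑ j, M i j • D j) = bump 1 (fun _ => 0) (bump 1 (fun _ => 0) M) *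
      rows c x D := by
    rw [rows_eq c x D, bump_mul]
    ext i j
    refine Fin.cases ?_ (fun i => ?_) i
    · simp [rows]
    · have h2 := congrFun (congrFun (bump_mul 1 (fun _ => 0) M x fun i j => D i (x j)) i) j
      rw [Matrix.mul_apply] at h2
      simp only [Matrix.of_apply, Fin.cons_succ, zero_mul, zero_add, one_mul] at h2 ⊢
      rw [h2]
      refine Fin.cases ?_ (fun i => ?_) i
      · simp [rows]
      · simp only [rows, Matrix.of_apply, Fin.cons_succ]
        exact sum_der (M i) D (x j)
  change A * (rows c x (fun i => ∑ j, M i j • D j)).det = M.det ^ 1 * (A * (rows c x D).det)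
  rw [h, Matrix.det_mul, det_bump, det_bump]
  ring

theorem der_aeval {d : ℕ} (D : Derivation ℂ K K) (x : Fin d → K) (F : MvPolynomial (Fin d) ℂ) :
    D (aeval x F) = ∑ l, aeval x (pderiv l F) * D (x l) := by
  classical
  induction F using MvPolynomial.induction_on with
  | C a => simp
  | add p q hp hq => simp only [map_add, hp, hq, add_mul, Finset.sum_add_distrib]
  | mul_X p i hp =>
    have h1 : ∀ b, aeval x (pderiv b (p * X i)) * D (x b) =
        (if b = i then aeval x p * D (x b) else 0) + x i * (aeval x (pderiv b p) * D (x b)) := by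
      intro b
      rw [(pderiv b).leibniz, smul_eq_mul, smul_eq_mul, map_add, map_mul, map_mul, aeval_X,
        pderiv_X, add_mul]
      congr 1
      · by_cases hb : b = i
        · subst hb
          simp
        · rw [if_neg hb, Pi.single_eq_of_ne (Ne.symm hb)]
          simp
      · ring
    rw [map_mul, aeval_X, D.leibniz, hp, Finset.sum_congr rfl fun b _ => h1 b,
      Finset.sum_add_distrib, Finset.sum_ite_eq' Finset.univ i, if_pos (Finset.mem_univ _),
      ← Finset.mul_sum, smul_eq_mul, smul_eq_mul]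

theorem euler_aeval {d dF : ℕ} {F : MvPolynomial (Fin d) ℂ} (hh : F.IsHomogeneous dF)
    {x : Fin d → K} (hx : aeval x F = 0) : ∑ l, aeval x (pderiv l F) * x l = 0 := by
  have h3 := congrArg (aeval x) hh.sum_X_mul_pderiv
  rw [map_sum, map_nsmul, hx, smul_zero] at h3
  rw [← h3]
  refine Finset.sum_congr rfl fun l _ => ?_
  rw [map_mul, aeval_X]
  ring

theorem k1 {n d : ℕ} {F : MvPolynomial (Fin (n + 2)) ℂ} (hF : F.IsHomogeneous d)
    {x : Fin (n + 2) → K} (hx : aeval x F = 0) {c c' : Fin (n + 2) → K}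
    (hc : ∑ l, aeval x (pderiv l F) * c l = 1) (hc' : ∑ l, aeval x (pderiv l F) * c' l = 1)
    (D : Fin n → Derivation ℂ K K) : (rows c x D).det = (rows c' x D).det := by
  rw [rows_eq, rows_eq]
  refine det_first c c' _ (fun l => aeval x (pderiv l F)) ?_ (hc.trans hc'.symm) fun i => ?_
  · intro h
    have h2 : ∀ l, aeval x (pderiv l F) = 0 := fun l => congrFun h l
    simp [h2] at hc
  · refine Fin.cases ?_ (fun i => ?_) i
    · simpa using euler_aeval hF hx
    · simp only [Fin.cons_succ]
      rw [← der_aeval, hx, map_zero]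

/-- the value of a form at a multiple of a vector -/
theorem aeval_smul_form {m dF : ℕ} {F : MvPolynomial (Fin m) ℂ} (hh : F.IsHomogeneous dF) (c : K)
    (y : Fin m → K) : aeval (fun l => c * y l) F = c ^ dF * aeval y F := by
  classical
  rw [aeval_def, eval₂_eq', aeval_def, eval₂_eq', Finset.mul_sum]
  refine Finset.sum_congr rfl fun a ha => ?_
  have h1 : ∑ i, a i = dF := by
    have h2 := hh (mem_support_iff.1 ha)
    rw [← h2, Finsupp.weight_apply, Finsupp.sum_fintype _ _ fun i => by simp]
    simp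
  simp only [mul_pow, Finset.prod_mul_distrib]
  rw [Finset.prod_pow_eq_pow_sum, h1]
  ring

theorem k2 {n : ℕ} (lam μ : K) (c x : Fin (n + 2) → K) (D : Fin n → Derivation ℂ K K) :
    (rows (fun l => μ * c l) (fun l => lam * x l) D).det =
      μ * (lam * lam ^ n) * (rows c x D).det := by
  have h : rows (fun l => μ * c l) (fun l => lam * x l) D =
      bump μ (fun _ => 0) (bump lam (fun i => D i lam) (Matrix.diagonal fun _ => lam)) *
      rows c x D := by
    rw [rows_eq c x D, bump_mul]
    ext i j
    refine Fin.cases ?_ (fun i => ?_) i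
    · simp [rows]
    · have h2 := congrFun (congrFun (bump_mul lam (fun i => D i lam)
        (Matrix.diagonal fun _ => lam) x fun i j => D i (x j)) i) j
      rw [Matrix.mul_apply] at h2
      simp only [Matrix.of_apply, Fin.cons_succ, zero_mul, zero_add] at h2 ⊢
      rw [h2]
      refine Fin.cases ?_ (fun i => ?_) i
      · simp [rows]
      · simp only [rows, Matrix.of_apply, Fin.cons_succ, Matrix.diagonal_apply, ite_mul, zero_mul,
          Finset.sum_ite_eq, Finset.mem_univ, if_true, Derivation.leibniz, smul_eq_mul]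
        ring
  rw [h, Matrix.det_mul, det_bump, det_bump, Matrix.det_diagonal]
  simp

theorem reg_aeval {d : ℕ} {P : Place ℂ K} {Z : Fin d → K} (hZ : ∀ b, P.Reg (Z b))
    (G : MvPolynomial (Fin d) ℂ) : P.Reg (aeval Z G) := by
  induction G using MvPolynomial.induction_on with
  | C a =>
    rw [aeval_C]
    exact P.reg_const a
  | add p q hp hq => rw [map_add]; exact P.reg_add hp hq
  | mul_X p i hp => rw [map_mul, aeval_X]; exact P.reg_mul hp (hZ i)

theorem reg_det {ι : Type} [Fintype ι] [DecidableEq ι] (P : Place ℂ K) (A : Matrix ι ι K)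
    (hA : ∀ i j, P.Reg (A i j)) : P.Reg A.det := by
  let B : Matrix ι ι P.O := fun i j => ⟨A i j, hA i j⟩
  have h : A = P.O.subtype.mapMatrix B := by
    ext i j; rfl
  rw [h, ← RingHom.map_det]
  exact (B.det).2

theorem null_cert {m : ℕ} {F : MvPolynomial (Fin m) ℂ} (hs : Sm F) (j : Fin m) :
    ∃ (M : ℕ) (A : Fin m → MvPolynomial (Fin m) ℂ), X j ^ M = ∑ l, A l * pderiv l F := by
  classical
  obtain ⟨I, hI⟩ : ∃ I : Ideal (MvPolynomial (Fin m) ℂ),
    I = Ideal.span (Set.range fun l => pderiv l F) := ⟨_, rfl⟩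
  have h1 : (X j : MvPolynomial (Fin m) ℂ) ∈ vanishingIdeal ℂ (zeroLocus ℂ I) := by
    rw [mem_vanishingIdeal_iff]
    intro x hx
    have hx0 : x = 0 := by
      by_contra hne
      obtain ⟨l, hl⟩ := hs x hne
      apply hl
      rw [mem_zeroLocus_iff] at hx
      have h2 := hx (pderiv l F) (by rw [hI]; exact Ideal.subset_span ⟨l, rfl⟩)
      exact h2
    rw [hx0, aeval_X]
    rfl
  rw [vanishingIdeal_zeroLocus_eq_radical] at h1
  obtain ⟨M, hM⟩ := h1
  rw [hI, Ideal.mem_span_range_iff_exists_fun] at hM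
  obtain ⟨A, hA⟩ := hM
  exact ⟨M, A, hA.symm⟩

/-- some partial derivative is a unit at a place where the coordinates are regular and one of them
is `1` -/
theorem exists_unit (P : Place ℂ K) {m : ℕ} {F : MvPolynomial (Fin m) ℂ} (hs : Sm F)
    {y : Fin m → K} (hy : ∀ l, P.Reg (y l)) {j : Fin m} (hj : y j = 1) :
    ∃ l, aeval y (pderiv l F) ≠ 0 ∧ P.ord (aeval y (pderiv l F)) = 0 := by
  classical
  by_contra hcon
  push Not at hcon
  have h3 : ∀ l, Ge P 1 (aeval y (pderiv l F)) := by
    intro l
    by_cases h0 : aeval y (pderiv l F) = 0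
    · exact Or.inl h0
    · right
      have h2 := hcon l h0
      have h3 := (reg_aeval hy (pderiv l F)).resolve_left h0
      omega
  obtain ⟨M, A, hA⟩ := null_cert hs j
  have h4 : Ge P 1 (1 : K) := by
    have h5 := congrArg (aeval y) hA
    rw [map_pow, aeval_X, hj, one_pow, map_sum] at h5
    rw [h5]
    refine Ge.sum _ _ fun l _ => ?_
    rw [map_mul]
    have h6 := (show Ge P 0 (aeval y (A l)) from reg_aeval hy (A l)).mul (h3 l)
    simpa using h6
  rcases h4 with h4 | h4
  · exact one_ne_zero h4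
  · rw [P.ord_one] at h4
    omega

theorem ne_zero_of {n d : ℕ} {F : MvPolynomial (Fin (n + 2)) ℂ} (hF : F.IsHomogeneous d)
    (hd : 2 ≤ d) {c x : Fin (n + 2) → K} (hc : ∑ l, aeval x (pderiv l F) * c l = 1) :
    ∃ j, x j ≠ 0 := by
  by_contra hcon
  push Not at hcon
  have h1 : ∀ l, aeval x (pderiv l F) = 0 := by
    intro l
    have h2 := aeval_smul_form (hF.pderiv (i := l)) (0 : K) x
    have h3 : (fun l => (0 : K) * x l) = x := by
      funext l
      rw [hcon l, mul_zero]
    rw [h3, zero_pow (by omega), zero_mul] at h2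
    exact h2
  simp [h1] at hc

end

/-- the residue forms are regular -/
theorem res_b : StResB := by
  classical
  intro K _ _ n m d F A hs hF hA hd c x hx hc P D hD
  have hd2 : 2 ≤ d := by omega
  obtain ⟨j1, hj1⟩ := ne_zero_of hF hd2 hc
  obtain ⟨j, hj, hmin⟩ := Finset.exists_min_image (Finset.univ.filter fun l => x l ≠ 0)
    (fun l => P.ord (x l)) ⟨j1, by simp [hj1]⟩
  have hj0 : x j ≠ 0 := (Finset.mem_filter.1 hj).2
  obtain ⟨lam, hlam⟩ : ∃ lam : K, lam = (x j)⁻¹ := ⟨_, rfl⟩
  have hl0 : lam ≠ 0 := by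
    rw [hlam]
    exact inv_ne_zero hj0
  obtain ⟨x', hx'⟩ : ∃ x' : Fin (n + 2) → K, x' = fun l => lam * x l := ⟨_, rfl⟩
  have hx1 : x' j = 1 := by
    rw [hx', hlam]
    exact inv_mul_cancel₀ hj0
  have hreg : ∀ l, P.Reg (x' l) := by
    intro l
    rw [hx']
    change P.Reg (lam * x l)
    by_cases h0 : x l = 0
    · left
      rw [h0, mul_zero]
    · right
      rw [P.ord_mul hl0 h0, hlam, P.ord_inv]
      have h1 := hmin l (by simp [h0])
      omega
  obtain ⟨l0, hl1, hl2⟩ := exists_unit P hs hreg hx1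
  have hFx' : aeval x' F = 0 := by
    rw [hx', aeval_smul_form hF, hx, mul_zero]
  obtain ⟨μ, hμ⟩ : ∃ μ : K, μ = (lam ^ (d - 1))⁻¹ := ⟨_, rfl⟩
  have hlp : lam ^ (d - 1) ≠ 0 := pow_ne_zero _ hl0
  have hc1 : ∑ l, aeval x' (pderiv l F) * (μ * c l) = 1 := by
    rw [← hc]
    refine Finset.sum_congr rfl fun l _ => ?_
    rw [hx', aeval_smul_form (hF.pderiv (i := l)), hμ]
    field_simp
  have hc2 : ∑ l, aeval x' (pderiv l F) *
      (Pi.single l0 (aeval x' (pderiv l0 F))⁻¹ : Fin (n + 2) → K) l = 1 := by
    rw [Finset.sum_eq_single l0]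
    · rw [Pi.single_eq_same]
      exact mul_inv_cancel₀ hl1
    · intro b _ hb
      rw [Pi.single_eq_of_ne hb, mul_zero]
    · intro h
      exact absurd (Finset.mem_univ _) h
  have h1 := k1 hF hFx' hc1 hc2 D
  have h2 := k2 lam μ c x D
  rw [← hx', h1] at h2
  have h3 : aeval x A * (rows c x D).det = aeval x' A *
      (rows (Pi.single l0 (aeval x' (pderiv l0 F))⁻¹ : Fin (n + 2) → K) x' D).det := by
    rw [h2, hx', aeval_smul_form hA, hμ]
    have h4 : lam ^ m * ((lam ^ (d - 1))⁻¹ * (lam * lam ^ n)) = 1 := by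
      have h5 : lam ^ (d - 1) = lam ^ m * (lam * lam ^ n) := by
        rw [← pow_succ', ← pow_add]
        congr 1
        omega
      rw [h5] at hlp ⊢
      field_simp
    linear_combination (-(aeval x A * (rows c x D).det)) * h4
  change P.Reg (aeval x A * (rows c x D).det)
  rw [h3]
  refine P.reg_mul (reg_aeval hreg A) (reg_det P _ fun a b => ?_)
  rw [rows_eq, Matrix.of_apply]
  refine Fin.cases ?_ (fun a => ?_) a
  · simp only [Fin.cons_zero]
    by_cases hb : b = l0
    · rw [hb, Pi.single_eq_same]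
      right
      rw [P.ord_inv, hl2]
      simp
    · rw [Pi.single_eq_of_ne hb]
      exact P.reg_zero
  · refine Fin.cases ?_ (fun a => ?_) a
    · simpa using hreg b
    · simpa using hD a _ (hreg b)

/-- the residue forms are not zero -/
theorem res_c : StResC := by
  classical
  intro K _ _ n d F hF hd c x hx hc hK D hD hdet
  rw [← Matrix.exists_vecMul_eq_zero_iff] at hdet
  obtain ⟨v, hv0, hv⟩ := hdet
  have h1 : ∀ j, v 0 * c j + (v 1 * x j + ∑ i : Fin n, v i.succ.succ * D i (x j)) = 0 := by
    intro j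
    have h2 := congrFun hv j
    rw [Matrix.vecMul, dotProduct, Fin.sum_univ_succ, Fin.sum_univ_succ] at h2
    simpa [rows] using h2
  have h2 : v 0 = 0 := by
    have h3 : ∑ j, aeval x (pderiv j F) * (v 0 * c j + (v 1 * x j + ∑ i : Fin n,
        v i.succ.succ * D i (x j))) = v 0 := by
      have h4 : ∀ i : Fin n, ∑ j, aeval x (pderiv j F) * D i (x j) = 0 := by
        intro i
        rw [← der_aeval, hx, map_zero]
      have h5 := euler_aeval hF hx
      have h6 : ∑ j, aeval x (pderiv j F) * (v 0 * c j + (v 1 * x j + ∑ i : Fin n,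
          v i.succ.succ * D i (x j))) = v 0 * ∑ j, aeval x (pderiv j F) * c j +
          (v 1 * ∑ j, aeval x (pderiv j F) * x j +
          ∑ i : Fin n, v i.succ.succ * ∑ j, aeval x (pderiv j F) * D i (x j)) := by
        simp only [mul_add, Finset.sum_add_distrib, Finset.mul_sum]
        congr 1
        · exact Finset.sum_congr rfl fun j _ => by ring
        · congr 1
          · exact Finset.sum_congr rfl fun j _ => by ring
          · rw [Finset.sum_comm]
            exact Finset.sum_congr rfl fun i _ => Finset.sum_congr rfl fun j _ => by ring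
      rw [h6, hc, h5]
      simp [h4]
    rw [← h3]
    exact Finset.sum_eq_zero fun j _ => by rw [h1 j, mul_zero]
  obtain ⟨D', hD'⟩ : ∃ D' : Derivation ℂ K K, D' = ∑ i : Fin n, v i.succ.succ • D i := ⟨_, rfl⟩
  have h3 : ∀ j, D' (x j) = -(v 1 * x j) := by
    intro j
    have h4 := h1 j
    rw [h2, zero_mul, zero_add] at h4
    have h5 : D' (x j) = ∑ i : Fin n, v i.succ.succ * D i (x j) := by
      rw [hD', sum_der]
    rw [h5]
    linear_combination h4
  have h4 : D' = 0 := by
    apply hK
    intro i j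
    rw [h3, h3]
    ring
  have h5 : ∀ i : Fin n, v i.succ.succ = 0 := by
    rw [Fintype.linearIndependent_iff] at hD
    exact hD (fun i => v i.succ.succ) (by rw [← hD', h4])
  obtain ⟨j, hj⟩ := ne_zero_of hF hd hc
  have h6 : v 1 = 0 := by
    have h7 := h3 j
    rw [h4, Derivation.coe_zero, Pi.zero_apply] at h7
    have h8 : v 1 * x j = 0 := by linear_combination h7
    exact (mul_eq_zero.1 h8).resolve_right hj
  apply hv0
  funext i
  refine Fin.cases h2 (fun i => ?_) i
  refine Fin.cases ?_ (fun i => ?_) i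
  · exact h6
  · exact h5 i

end Pool.Agent.Y988.NT
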